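import Mathlib
import Pool.Agent.Q268.DL.FinA
import Pool.Agent.Q268.DP.Exist

/-!
# The constants `L_a` and `U_a` of randomly displaced primes

Every prime `q` is moved to `q + X q`, the displacements `X q` being independent and uniform on
`{0, …, ⌊(log q)^u⌋}`, `u > 0`.  Let `A` be the set of the moved primes.  Almost surely, for all real
`a > 2` at once, the constants `L_a` and `U_a` of `A` are those of the primes at the level `u` if
`a ≤ u - 1`, those of the primes at the level `a` if `a ≥ u + 1`, and they lie between the constants of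
the primes at both levels in all cases.  So the displaced primes inherit Maier's phenomenon at all levels
`a > 2` with `|a - u| ≥ 1`, and the question whether `L_a` and `U_a` tend to `1` has the same answer for
the displaced primes as for the primes.
-/

set_option autoImplicit false

namespace Pool.Agent.Results.MP_b09185_nt.DisplacedLevels

open Filter MeasureTheory Topology
open Pool.Agent.Q268.DP (Disp moved)

/-- `R_a(x)` with the set `S` in place of the primes: `log x / (log x)^a` times the number of elements of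
`S` in `(x, x + (log x)^a]` -/
noncomputable def R (S : Set ℕ) (a x : ℝ) : ℝ :=
  Real.log x / Real.log x ^ a * ({n : ℕ | n ∈ S ∧ x < n ∧ (n : ℝ) ≤ x + Real.log x ^ a}.ncard : ℕ)

/-- `L_a` of the set `S`: the lower limit of `R_a(x)` as the real number `x` tends to infinity -/
noncomputable def L (S : Set ℕ) (a : ℝ) : EReal := liminf (fun x : ℝ => (R S a x : EReal)) atTop

/-- `U_a` of the set `S`: the upper limit of `R_a(x)` as the real number `x` tends to infinity -/
noncomputable def U (S : Set ℕ) (a : ℝ) : EReal := limsup (fun x : ℝ => (R S a x : EReal)) atTop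

/-- the question (limit of `L_a` and of `U_a` equal to `1`), in its equivalent form, for the set `S` -/
def Q1 (S : Set ℕ) : Prop := ∀ ε : ℝ, 0 < ε → ∃ a₀ : ℝ, ∀ a : ℝ, a₀ ≤ a → ∀ᶠ x : ℝ in atTop, |R S a x - 1| ≤ ε

/-- the set of the primes -/
def primes : Set ℕ := {p : ℕ | p.Prime}

theorem R_prime (a : ℝ) : ∀ᶠ x : ℝ in atTop, R primes a x = Real.log x / Real.log x ^ a *
    ((Nat.primeCounting ⌊x + Real.log x ^ a⌋₊ : ℝ) - (Nat.primeCounting ⌊x⌋₊ : ℝ)) := by
  filter_upwards [eventually_ge_atTop 1] with x hx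
  have h1 := Pool.Agent.Q268.DL.cR_eq primes (x := x) (y := Real.log x ^ a) (by linarith)
    (Real.rpow_nonneg (Real.log_nonneg hx) a)
  unfold R
  have h2 : ({n : ℕ | n ∈ primes ∧ x < n ∧ (n : ℝ) ≤ x + Real.log x ^ a}.ncard : ℝ) =
      Pool.Agent.Q268.DL.cR primes x (Real.log x ^ a) := rfl
  rw [h2, h1]
  congr 2
  · exact Pool.Agent.Q268.DL.ct_PP _
  · exact Pool.Agent.Q268.DL.ct_PP _

theorem result :
    -- families of displacements exist
    (∀ D : ℕ → ℕ, ∃ μ : Measure (ℕ → ℕ), Disp μ (fun q ω => ω q) D) ∧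
    -- `Q1 primes` is the question
    (Q1 primes ↔ ∀ ε : ℝ, 0 < ε → ∃ a₀ : ℝ, ∀ a : ℝ, a₀ ≤ a → ∀ᶠ x : ℝ in atTop,
      |Real.log x / Real.log x ^ a *
        ((Nat.primeCounting ⌊x + Real.log x ^ a⌋₊ : ℝ) - (Nat.primeCounting ⌊x⌋₊ : ℝ)) - 1| ≤ ε) ∧
    -- displacements of size `(log q)^u`
    (∀ u : ℝ, 0 < u → ∀ (Ω : Type) [MeasurableSpace Ω] (μ : Measure Ω) (X : ℕ → Ω → ℕ),
      Disp μ X (fun q => ⌊Real.log q ^ u⌋₊) → ∀ᵐ ω ∂μ,
        -- for all real `a > 2` simultaneously
        (∀ a : ℝ, 2 < a →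
          -- short windows: the constants of the primes at the level `u`
          (a ≤ u - 1 → L (moved Nat.Prime X ω) a = L primes u ∧ U (moved Nat.Prime X ω) a = U primes u) ∧
          -- long windows: the constants of the primes at the level `a`
          (u + 1 ≤ a → L (moved Nat.Prime X ω) a = L primes a ∧ U (moved Nat.Prime X ω) a = U primes a) ∧
          -- all windows
          (L primes a ≤ L (moved Nat.Prime X ω) a ∧ U (moved Nat.Prime X ω) a ≤ U primes a) ∧
          (1 < u → L primes u ≤ L (moved Nat.Prime X ω) a ∧ U (moved Nat.Prime X ω) a ≤ U primes u) ∧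
          -- the asymptotic formula fails
          (a ≤ u - 1 ∨ u + 1 ≤ a → L (moved Nat.Prime X ω) a < 1)) ∧
        -- the question has the same answer
        (Q1 (moved Nat.Prime X ω) ↔ Q1 primes)) := by
  refine ⟨Pool.Agent.Q268.DP.exists_disp, ?_, ?_⟩
  · have key : ∀ (a ε : ℝ), (∀ᶠ x : ℝ in atTop, |R primes a x - 1| ≤ ε) ↔ ∀ᶠ x : ℝ in atTop,
        |Real.log x / Real.log x ^ a *
          ((Nat.primeCounting ⌊x + Real.log x ^ a⌋₊ : ℝ) - (Nat.primeCounting ⌊x⌋₊ : ℝ)) - 1| ≤ ε := by
      intro a ε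
      apply eventually_congr
      filter_upwards [R_prime a] with x hx
      rw [hx]
    unfold Q1
    simp only [key]
  · intro u hu Ω _ μ X hX
    filter_upwards [Pool.Agent.Q268.DL.main hu hX] with ω hω
    refine ⟨fun a ha => ?_, hω.2⟩
    obtain ⟨h1, h2, h3, h4⟩ := hω.1 a ha
    refine ⟨h1, h2, h3, h4, ?_⟩
    rintro (h5 | h5)
    · have h6 : L (moved Nat.Prime X ω) a = L primes u := (h1 h5).1
      rw [h6]
      exact Pool.Agent.Q268.DL.LL_lt_one (by linarith)
    · have h6 : L (moved Nat.Prime X ω) a = L primes a := (h2 h5).1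
      rw [h6]
      exact Pool.Agent.Q268.DL.LL_lt_one ha.le

end Pool.Agent.Results.MP_b09185_nt.DisplacedLevels
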