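import Pool.Agent.Q120.EX.Large
import Pool.Agent.Q120.MF.Exists

/-!
# Extreme numbers of elements in windows of length `λ log^2 x`, in Cramér's model

The question is about `U(h) = limsup R_h` and `L(h) = liminf R_h`, where `R_h(x)` is the number of primes in
`(x, x + h(x)]`, divided by `h(x) / log x`. In Cramér's random model we determine `U` and `L` for `h = λ log^2 x`
and prove that `U(h) = L(h) = 1` as soon as `h / log^2 x` tends to infinity.
-/

set_option autoImplicit false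

namespace Pool.Agent.Results.MP_b09185_nt.ExtremalCounts

open MeasureTheory Filter Pool.Agent.Q120.MF Pool.Agent.Q120.AD
open scoped Topology

/-- `R_h(x)`. -/
noncomputable def R (S : Set ℕ) (h : ℕ → ℝ) (x : ℕ) : ℝ :=
  ({n | n ∈ S ∧ x < n ∧ (n : ℝ) ≤ x + h x}.ncard : ℝ) / (h x / Real.log x)

theorem R_eq (S : Set ℕ) {a : ℝ} (ha : 0 < a) {x : ℕ} (hx : 3 ≤ x) :
    R S (fun x => a * Real.log x ^ 2) x =
      (Pool.Agent.Q120.EX.num S (fun x => a * Real.log x ^ 2) x : ℝ) / (a * Real.log x) := by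
  have hlog := Pool.Agent.Q120.ET.one_lt_log hx
  unfold R Pool.Agent.Q120.EX.num
  congr 1
  field_simp

theorem result :
    (∃ (Ω : Type) (_ : MeasurableSpace Ω) (μ : Measure Ω) (A : Ω → Set ℕ), IsProbabilityMeasure μ ∧ IsCramer μ A) ∧
    ∀ (Ω : Type) [MeasurableSpace Ω] (μ : Measure Ω) [IsProbabilityMeasure μ] (A : Ω → Set ℕ), IsCramer μ A →
      -- windows of length `a log^2 x`, upper limit
      (∀ a u : ℝ, 0 < a → 1 < u →
        (1 < a * (1 - u + u * Real.log u) → ∀ᵐ ω ∂μ, ∀ᶠ x : ℕ in atTop, R (A ω) (fun x => a * Real.log x ^ 2) x ≤ u) ∧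
        (a * (1 - u + u * Real.log u) < 1 → ∀ᵐ ω ∂μ, ∀ᶠ x : ℕ in atTop, ∃ y, x ≤ y ∧ y ≤ 2 * x ∧
          u ≤ R (A ω) (fun x => a * Real.log x ^ 2) y)) ∧
      -- lower limit
      (∀ a v : ℝ, 0 < a → 0 ≤ v → v < 1 →
        (0 < v → 1 < a * (1 - v + v * Real.log v) →
          ∀ᵐ ω ∂μ, ∀ᶠ x : ℕ in atTop, v ≤ R (A ω) (fun x => a * Real.log x ^ 2) x) ∧
        (a * (1 - v + v * Real.log v) < 1 → ∀ᵐ ω ∂μ, ∀ᶠ x : ℕ in atTop, ∃ y, x ≤ y ∧ y ≤ 2 * x ∧
          R (A ω) (fun x => a * Real.log x ^ 2) y ≤ v)) ∧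
      -- longer windows
      (∀ h : ℕ → ℝ, Tendsto (fun x => h x / Real.log x ^ 2) atTop atTop → (∀ᶠ x : ℕ in atTop, h x ≤ x) →
        ∀ᵐ ω ∂μ, Tendsto (R (A ω) h) atTop (𝓝 1)) := by
  refine ⟨⟨_, _, cramerMeasure, cramerSet, inferInstance, isCramer⟩, ?_⟩
  intro Ω _ μ _ A hA
  have hrate : ∀ a u : ℝ, 0 < a → 0 ≤ u → Pool.Agent.Q120.EX.rate a (u * a) = a * (1 - u + u * Real.log u) := by
    intro a u ha hu
    unfold Pool.Agent.Q120.EX.rate
    rcases hu.eq_or_lt with h0 | h0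
    · rw [← h0]
      simp
    · have h1 : a / (u * a) = u⁻¹ := by field_simp
      rw [h1, Real.log_inv]
      ring
  refine ⟨fun a u ha hu => ⟨fun hr => ?_, fun hr => ?_⟩, fun a v ha hv hv1 => ⟨fun hv0 hr => ?_, fun hr => ?_⟩, ?_⟩
  · rw [← hrate a u ha (by linarith)] at hr
    filter_upwards [Pool.Agent.Q120.EX.max_le hA ha (show a < u * a by nlinarith) hr] with ω hω
    filter_upwards [hω, eventually_ge_atTop 3] with x hx hx3
    have hlog := Pool.Agent.Q120.ET.one_lt_log hx3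
    rw [R_eq _ ha hx3, div_le_iff₀ (by positivity)]
    linarith
  · rw [← hrate a u ha (by linarith)] at hr
    filter_upwards [Pool.Agent.Q120.EX.exists_big hA ha (show a < u * a by nlinarith) hr] with ω hω
    filter_upwards [hω, eventually_ge_atTop 3] with x hx hx3
    obtain ⟨y, h1, h2, h3⟩ := hx
    refine ⟨y, h1, h2, ?_⟩
    have hlog := Pool.Agent.Q120.ET.one_lt_log (show 3 ≤ y by omega)
    rw [R_eq _ ha (by omega), le_div_iff₀ (by positivity)]
    linarith
  · rw [← hrate a v ha hv] at hr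
    filter_upwards [Pool.Agent.Q120.EX.le_min hA (show 0 < v * a by positivity) (show v * a < a by nlinarith) hr] with ω hω
    filter_upwards [hω, eventually_ge_atTop 3] with x hx hx3
    have hlog := Pool.Agent.Q120.ET.one_lt_log hx3
    rw [R_eq _ ha hx3, le_div_iff₀ (by positivity)]
    linarith
  · rw [← hrate a v ha hv] at hr
    filter_upwards [Pool.Agent.Q120.EX.exists_small hA (show 0 ≤ v * a by positivity) (show v * a < a by nlinarith) hr]
      with ω hω
    filter_upwards [hω, eventually_ge_atTop 3] with x hx hx3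
    obtain ⟨y, h1, h2, h3⟩ := hx
    refine ⟨y, h1, h2, ?_⟩
    have hlog := Pool.Agent.Q120.ET.one_lt_log (show 3 ≤ y by omega)
    rw [R_eq _ ha (by omega), div_le_iff₀ (by positivity)]
    linarith
  · intro h h1 h2
    filter_upwards [Pool.Agent.Q120.EX.large_asym hA h1 h2] with ω hω
    exact hω

end Pool.Agent.Results.MP_b09185_nt.ExtremalCounts
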