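import Pool.Agent.Q120.CL.M5

/-!
# Windows of length `(log x) ^ a` in the sieved models of the primes as a function of the sieving level

`z : ℕ → ℕ` gives the level: on the block `2 ^ k ≤ n < 2 ^ (k + 1)` the random set contains each `n` without prime
factors `p < z k` independently with probability `1 / (V log n)` (at most `1`), `V = ∏_{p < z k} (1 - 1/p)`, and no other `n`.

`Ra S a x` is `log x / (log x) ^ a` times the number of elements of `S` in `(x, x + (log x) ^ a]`,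
`Da z a x` is `log x / (log x) ^ a` times the sum of the probabilities of the numbers in `(x, x + (log x) ^ a]`.
-/

set_option autoImplicit false

namespace Pool.Agent.Results.MP_b09185_nt.MaierPhenomenonLevels

open Finset MeasureTheory Filter Pool.Agent.Q120.MG Pool.Agent.Q120.GM Pool.Agent.Q120.CL
open scoped Topology

variable {Ω : Type*} [MeasurableSpace Ω] {μ : Measure Ω} [IsProbabilityMeasure μ] {A : Ω → Set ℕ} {z : ℕ → ℕ}

theorem not_small (h : ¬ Tendsto (fun k : ℕ => Real.log (z k) / Real.log k) atTop (𝓝 0)) :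
    ∃ δ : ℝ, 0 < δ ∧ ∃ᶠ k : ℕ in atTop, (k : ℝ) ^ δ ≤ z k := by
  by_contra hcon
  push Not at hcon
  apply h
  have hnn : ∀ k : ℕ, 0 ≤ Real.log (z k) / Real.log k := fun k =>
    div_nonneg (Real.log_natCast_nonneg _) (Real.log_natCast_nonneg _)
  rw [Metric.tendsto_atTop]
  intro δ hδ
  have h2 := hcon (δ / 2) (by linarith)
  obtain ⟨K, hK⟩ := eventually_atTop.1 (h2.and (eventually_ge_atTop 2))
  refine ⟨K, fun k hk => ?_⟩
  obtain ⟨h3, h4⟩ := hK k hk
  have hk2 : (2 : ℝ) ≤ k := by exact_mod_cast h4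
  have hlk : 0 < Real.log (k : ℝ) := Real.log_pos (by linarith)
  rw [Real.dist_eq, sub_zero, abs_of_nonneg (hnn k), div_lt_iff₀ hlk]
  rcases Nat.eq_zero_or_pos (z k) with h5 | h5
  · rw [h5]
    simp only [Nat.cast_zero, Real.log_zero]
    positivity
  · have h6 : (0 : ℝ) < z k := by exact_mod_cast h5
    have h7 := Real.log_le_log h6 h3.le
    rw [Real.log_rpow (by linarith)] at h7
    nlinarith

/-- Small levels: all densities are regular. -/
theorem Da_one (hz : ∀ᶠ k : ℕ in atTop, z k ≤ k) (h : Tendsto (fun k : ℕ => Real.log (z k) / Real.log k) atTop (𝓝 0))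
    {a : ℝ} (ha : 2 < a) : Tendsto (fun x : ℝ => Da z a x) atTop (𝓝 1) := by
  rw [Metric.tendsto_nhds]
  intro ε hε
  obtain ⟨κ, hκ⟩ : ∃ κ, κ = min (ε / 8) (1 / 4) := ⟨_, rfl⟩
  have hκ0 : 0 < κ := by rw [hκ]; exact lt_min (by linarith) (by norm_num)
  have hκ1 : κ ≤ ε / 8 := by rw [hκ]; exact min_le_left _ _
  have hκ2 : κ ≤ 1 / 4 := by rw [hκ]; exact min_le_right _ _
  obtain ⟨s, hs, hreg⟩ := Da_regular hκ0 hκ2
  have hs0 : (0 : ℝ) < s := by exact_mod_cast hs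
  have h1 : ∀ᶠ k : ℕ in atTop, (z k : ℝ) ^ s ≤ (k : ℝ) ^ (1 : ℝ) := by
    filter_upwards [h.eventually (ge_mem_nhds (show (0 : ℝ) < 1 / s by positivity)), eventually_ge_atTop 2] with k h3 hk2
    have hk2' : (2 : ℝ) ≤ k := by exact_mod_cast hk2
    have hlk : 0 < Real.log (k : ℝ) := Real.log_pos (by linarith)
    rw [div_le_iff₀ hlk] at h3
    rw [Real.rpow_one]
    rcases Nat.eq_zero_or_pos (z k) with h6 | h6
    · rw [h6, Nat.cast_zero, zero_pow (by omega)]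
      linarith
    · have h7 : (0 : ℝ) < z k := by exact_mod_cast h6
      rw [← Real.log_le_log_iff (by positivity) (by linarith), Real.log_pow]
      calc (s : ℝ) * Real.log (z k) ≤ s * (1 / s * Real.log k) := mul_le_mul_of_nonneg_left h3 hs0.le
        _ = Real.log k := by field_simp
  filter_upwards [hreg z a 1 (by norm_num) (by linarith) hz h1] with x hx
  rw [Real.dist_eq]
  linarith

/-- **The windows of length `(log x) ^ a` in the models of all levels.** -/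
theorem result :
    -- the models exist
    (∀ z : ℕ → ℕ, IsModel (prodMeasure (pr z)) (pr z) (trueSet (ι := ℕ))) ∧
    -- all levels up to `k`: the counts follow the densities, for all exponents larger than two; the asymptotics holds
    -- if and only if the level is `(log x) ^ o(1)`
    (∀ (Ω : Type) (_ : MeasurableSpace Ω) (μ : Measure Ω) (_ : IsProbabilityMeasure μ) (A : Ω → Set ℕ) (z : ℕ → ℕ),
      (∀ᶠ k : ℕ in atTop, z k ≤ k) → IsModel μ (pr z) A → ∀ᵐ ω ∂μ, ∀ a : ℝ, 2 < a →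
        Tendsto (fun x : ℝ => Ra (A ω) a x - Da z a x) atTop (𝓝 0) ∧
        (Tendsto (fun k : ℕ => Real.log (z k) / Real.log k) atTop (𝓝 0) → Tendsto (fun x : ℝ => Ra (A ω) a x) atTop (𝓝 1)) ∧
        (¬ Tendsto (fun k : ℕ => Real.log (z k) / Real.log k) atTop (𝓝 0) → ∃ κ : ℝ, 0 < κ ∧
          (∃ᶠ x : ℝ in atTop, 1 + κ ≤ Ra (A ω) a x) ∧ ∃ᶠ x : ℝ in atTop, Ra (A ω) a x ≤ 1 - κ)) ∧
    -- the size of the irregularities depends only on the exponents
    (∀ δ a : ℝ, 0 < δ → 2 < a → ∃ κ : ℝ, 0 < κ ∧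
      ∀ (Ω : Type) (_ : MeasurableSpace Ω) (μ : Measure Ω) (_ : IsProbabilityMeasure μ) (A : Ω → Set ℕ) (z : ℕ → ℕ),
        (∀ᶠ k : ℕ in atTop, z k ≤ k) → (∃ᶠ k : ℕ in atTop, (k : ℝ) ^ δ ≤ z k) → IsModel μ (pr z) A → ∀ᵐ ω ∂μ,
          (∃ᶠ x : ℝ in atTop, 1 + κ ≤ Ra (A ω) a x) ∧ ∃ᶠ x : ℝ in atTop, Ra (A ω) a x ≤ 1 - κ) ∧
    -- the limit of large exponents: the question has a positive answer in all the models, with a uniform exponent
    (∀ ε : ℝ, 0 < ε → ∃ a₀ : ℝ,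
      ∀ (Ω : Type) (_ : MeasurableSpace Ω) (μ : Measure Ω) (_ : IsProbabilityMeasure μ) (A : Ω → Set ℕ) (z : ℕ → ℕ),
        (∀ᶠ k : ℕ in atTop, z k ≤ k) → IsModel μ (pr z) A → ∀ᵐ ω ∂μ, ∀ a : ℝ, a₀ ≤ a →
          ∀ᶠ x : ℝ in atTop, |Ra (A ω) a x - 1| ≤ ε) := by
  have key : ∀ {Ω : Type} [MeasurableSpace Ω] {μ : Measure Ω} [IsProbabilityMeasure μ] {A : Ω → Set ℕ} {z : ℕ → ℕ} {κ a : ℝ}
      {ω : Ω}, 0 < κ → Tendsto (fun x : ℝ => Ra (A ω) a x - Da z a x) atTop (𝓝 0) →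
      (∃ᶠ x : ℝ in atTop, 1 + κ ≤ Da z a x) ∧ (∃ᶠ x : ℝ in atTop, Da z a x ≤ 1 - κ) →
      (∃ᶠ x : ℝ in atTop, 1 + κ / 2 ≤ Ra (A ω) a x) ∧ ∃ᶠ x : ℝ in atTop, Ra (A ω) a x ≤ 1 - κ / 2 := by
    intro Ω _ μ _ A z κ a ω hκ h1 h2
    have h3 := h1.eventually (ge_mem_nhds (show (0 : ℝ) < κ / 2 by linarith))
    have h4 := h1.eventually (le_mem_nhds (show -(κ / 2) < (0 : ℝ) by linarith))
    refine ⟨(h2.1.and_eventually h4).mono (fun x hx => ?_), (h2.2.and_eventually h3).mono (fun x hx => ?_)⟩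
    · linarith [hx.1, hx.2]
    · linarith [hx.1, hx.2]
  refine ⟨fun z => isModel (pr z) (pr_nonneg z) (pr_le_one z), ?_, ?_, ?_⟩
  · intro Ω _ μ _ A z hz hA
    filter_upwards [Ra_Da hA hz] with ω hω a ha
    refine ⟨hω a ha, fun h => ?_, fun h => ?_⟩
    · have h1 := (hω a ha).add (Da_one hz h ha)
      simp only [sub_add_cancel, zero_add] at h1
      exact h1
    · obtain ⟨δ, hδ, hf⟩ := not_small h
      obtain ⟨κ, hκ, _, hirr⟩ := Da_irregular hδ (show 0 < a by linarith)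
      exact ⟨κ / 2, by linarith, key (μ := μ) hκ (hω a ha) (hirr z hz hf)⟩
  · intro δ a hδ ha
    obtain ⟨κ, hκ, _, hirr⟩ := Da_irregular hδ (show 0 < a by linarith)
    refine ⟨κ / 2, by linarith, fun Ω _ μ _ A z hz hf hA => ?_⟩
    filter_upwards [Ra_Da hA hz] with ω hω
    exact key (μ := μ) hκ (hω a ha) (hirr z hz hf)
  · intro ε hε
    obtain ⟨κ, hκ⟩ : ∃ κ, κ = min (ε / 8) (1 / 4) := ⟨_, rfl⟩
    have hκ0 : 0 < κ := by rw [hκ]; exact lt_min (by linarith) (by norm_num)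
    have hκ1 : κ ≤ ε / 8 := by rw [hκ]; exact min_le_left _ _
    have hκ2 : κ ≤ 1 / 4 := by rw [hκ]; exact min_le_right _ _
    obtain ⟨s, hs, hreg⟩ := Da_regular hκ0 hκ2
    have hs1 : (1 : ℝ) ≤ s := by exact_mod_cast hs
    refine ⟨(s : ℝ) + 2, fun Ω _ μ _ A z hz hA => ?_⟩
    filter_upwards [Ra_Da hA hz] with ω hω a ha
    have h1 : ∀ᶠ k : ℕ in atTop, (z k : ℝ) ^ s ≤ (k : ℝ) ^ (s : ℝ) := by
      filter_upwards [hz] with k hk
      rw [Real.rpow_natCast]
      exact pow_le_pow_left₀ (Nat.cast_nonneg _) (by exact_mod_cast hk) s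
    filter_upwards [hreg z a s (by linarith) (by linarith) hz h1,
      (hω a (by linarith)).eventually (ge_mem_nhds (show (0 : ℝ) < ε / 2 by linarith)),
      (hω a (by linarith)).eventually (le_mem_nhds (show -(ε / 2) < (0 : ℝ) by linarith))] with x h2 h3 h4
    rw [abs_le] at h2 ⊢
    constructor <;> linarith

end Pool.Agent.Results.MP_b09185_nt.MaierPhenomenonLevels
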