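import Pool.Agent.Q145.LD.Extreme
import Pool.Agent.Q145.RA.Shifts

set_option autoImplicit false
set_option maxHeartbeats 4000000

/-!
# The extreme densities of primes in random patterns

For the intervals `(x, x + h]` of length `h = (log x)^a` the normalised densities of primes
`R_h(x) = (log x / h) (π(x + h) - π(x))` are conjectured to approach `1` as `a → ∞`; Cramér's
model predicts `1` for `a > 2` and, for `h = κ log² x`, exact extreme values, the two roots of
`κ (1 - u + u log u) = 1`.  We prove this for the (true) primes and almost all patterns of `k`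
shifts `a_1, ..., a_k` from `[1, Y]`, and for every set `V` of `X` points of `[1, Y]` in place
of all integers up to `x`, with `log X log Y` in place of `log² x`.
-/

namespace Pool.Agent.Results.MP_b09185_nt.RandomPatternDensities

open Finset

open scoped Classical

/-- All sequences of length `k` of integers from `[1, Y]`. -/
def Seqs (Y k : ℕ) : Finset (Fin k → ℕ) := Fintype.piFinset (fun _ : Fin k => Icc 1 Y)

/-- The number of the primes among `n + a_1, ..., n + a_k`, times `log Y / k`. -/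
noncomputable def dens (Y : ℕ) {k : ℕ} (a : Fin k → ℕ) (n : ℕ) : ℝ :=
  Real.log Y / k * ((univ.filter (fun i : Fin k => (n + a i).Prime)).card : ℝ)

/-- The rate function `1 - u + u log u` (it is `0` only at `1`). -/
noncomputable def J (u : ℝ) : ℝ := 1 - u + u * Real.log u

/-- `κ = k / (log X log Y)` -/
noncomputable def kappa (X Y k : ℕ) : ℝ := (k : ℝ) / (Real.log X * Real.log Y)

/-- The law: with `X = #V`, up to factors `X^(±ε)` there are `X^(1 - κ J(u))` points with density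
at least `u`, if `u ≥ 1`, and at most `u`, if `0 ≤ u ≤ 1` (the lower bounds if
`κ J(u) ≤ 1 - ε`). -/
def Profile (ε : ℝ) (V : Finset ℕ) (Y : ℕ) {k : ℕ} (a : Fin k → ℕ) : Prop :=
  (∀ u : ℝ, 1 ≤ u →
    ((V.filter (fun n => u ≤ dens Y a n)).card : ℝ) ≤ (V.card : ℝ) ^ (1 - kappa V.card Y k * J u + ε) ∧
    (kappa V.card Y k * J u ≤ 1 - ε →
      (V.card : ℝ) ^ (1 - kappa V.card Y k * J u - ε) ≤ ((V.filter (fun n => u ≤ dens Y a n)).card : ℝ))) ∧
  (∀ u : ℝ, 0 ≤ u → u ≤ 1 →
    ((V.filter (fun n => dens Y a n ≤ u)).card : ℝ) ≤ (V.card : ℝ) ^ (1 - kappa V.card Y k * J u + ε) ∧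
    (kappa V.card Y k * J u ≤ 1 - ε →
      (V.card : ℝ) ^ (1 - kappa V.card Y k * J u - ε) ≤ ((V.filter (fun n => dens Y a n ≤ u)).card : ℝ)))

/-- The extreme values: up to `ε`, the largest density is the root `v > 1` of `κ J(v) = 1`, the
smallest one the root `w < 1` of `κ J(w) = 1` (for `κ ≥ 1`) and `0` (for `κ ≤ 1 - ε`). -/
def Extremes (ε : ℝ) (V : Finset ℕ) (Y : ℕ) {k : ℕ} (a : Fin k → ℕ) : Prop :=
  (∀ v : ℝ, 1 < v → kappa V.card Y k * J v = 1 →
    (∀ n ∈ V, dens Y a n ≤ v + ε) ∧ ∃ n ∈ V, v - ε ≤ dens Y a n) ∧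
  (∀ w : ℝ, 0 ≤ w → w < 1 → kappa V.card Y k * J w = 1 →
    (∀ n ∈ V, w - ε ≤ dens Y a n) ∧ ∃ n ∈ V, dens Y a n ≤ w + ε) ∧
  (kappa V.card Y k ≤ 1 - ε → ∃ n ∈ V, dens Y a n = 0)

open Pool.Agent.Q145.LD Pool.Agent.Q145.RA

theorem hit_eq {k : ℕ} (a : Fin k → ℕ) (n : ℕ) :
    ((univ.filter (fun i : Fin k => (n + a i).Prime)).card : ℝ) = hit (fun n a => (n + a).Prime) a n := by
  unfold hit
  rw [card_filter]
  push_cast
  apply sum_congr rfl
  intro i _
  split_ifs <;> rfl

theorem kap_eq (X Y k : ℕ) : kap (1 / Real.log Y) X k = kappa X Y k := by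
  unfold kap kappa
  rw [mul_one_div, div_div, mul_comm (Real.log (Y : ℝ))]

theorem dens_le (Y k : ℕ) (hY : 1 < Y) (hk : 0 < k) (a : Fin k → ℕ) (n : ℕ) (u : ℝ) :
    (dens Y a n ≤ u ↔ (hit (fun n a => (n + a).Prime) a n : ℝ) ≤ u * (k * (1 / Real.log Y))) ∧
    (u ≤ dens Y a n ↔ u * (k * (1 / Real.log Y)) ≤ (hit (fun n a => (n + a).Prime) a n : ℝ)) := by
  have hL : 0 < Real.log Y := Real.log_pos (by exact_mod_cast hY)
  have hk0 : (0 : ℝ) < k := by exact_mod_cast hk
  have hc : 0 < (k : ℝ) * (1 / Real.log Y) := by positivity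
  have e1 : dens Y a n = hit (fun n a => (n + a).Prime) a n / (k * (1 / Real.log Y)) := by
    unfold dens
    rw [hit_eq]
    field_simp
  rw [e1]
  exact ⟨div_le_iff₀ hc, le_div_iff₀ hc⟩

theorem result :
    (∀ K ε : ℝ, 0 < K → 0 < ε → ε ≤ 1 → ∃ X₀ : ℕ, ∀ (V : Finset ℕ) (Y k : ℕ), X₀ ≤ V.card → V ⊆ Icc 1 Y →
      ε ≤ kappa V.card Y k → kappa V.card Y k ≤ K →
      (((Seqs Y k).filter (fun a => ¬ (Profile ε V Y a ∧ Extremes ε V Y a))).card : ℝ) ≤ ε * (Y : ℝ) ^ k) ∧
    (∀ ε : ℝ, 0 < ε → ε < 1 → ∃ (M : ℝ) (X₀ : ℕ), ∀ (V : Finset ℕ) (Y k : ℕ), X₀ ≤ V.card → V ⊆ Icc 1 Y →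
      M ≤ kappa V.card Y k →
      (((Seqs Y k).filter (fun a => ¬ ∀ n ∈ V, |dens Y a n - 1| ≤ ε)).card : ℝ) ≤ ε * (Y : ℝ) ^ k) := by
  constructor
  · intro K ε hK hε hε1
    obtain ⟨ε', hε', hε'ε, h1⟩ := ext_of_prof (α := ℕ) (β := ℕ) K ε hK hε hε1
    obtain ⟨m, h2⟩ := profile (α := ℕ) (β := ℕ) K ε' hK hε' (hε'ε.trans hε1)
    obtain ⟨Y₀, h3⟩ := reg_shifts (1 / (m + 1 : ℝ)) (by positivity)
    refine ⟨max (max m Y₀) 3, fun V Y k hX hV hk hk' => ?_⟩
    have hm : m ≤ V.card := ((le_max_left _ _).trans (le_max_left _ _)).trans hX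
    have hY₀ : Y₀ ≤ V.card := ((le_max_right _ _).trans (le_max_left _ _)).trans hX
    have hX3 : 3 ≤ V.card := (le_max_right _ _).trans hX
    have hVY : V.card ≤ Y := by
      have := card_le_card hV
      rwa [Nat.card_Icc, Nat.add_sub_cancel] at this
    have hL : 0 < Real.log Y := Real.log_pos (by exact_mod_cast (by omega : 1 < Y))
    have hk0 : 0 < k := by
      by_contra h
      have : k = 0 := by omega
      rw [this] at hk
      unfold kappa at hk
      rw [Nat.cast_zero, zero_div] at hk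
      linarith
    rw [← kap_eq] at hk hk'
    have h4 := h2 (1 / Real.log Y) (Icc 1 Y) V (fun n a => (n + a).Prime) (by positivity)
      (h3 Y (hY₀.trans hVY) V hV hX3) hm k (hε'ε.trans hk) hk'
    rw [Nat.card_Icc, Nat.add_sub_cancel] at h4
    have h5 : ε' * (Y : ℝ) ^ k ≤ ε * (Y : ℝ) ^ k := mul_le_mul_of_nonneg_right hε'ε (by positivity)
    refine le_trans ?_ (h4.trans h5)
    apply Nat.cast_le.2
    apply card_le_card
    intro a ha
    unfold Seqs at ha
    rw [mem_filter] at ha ⊢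
    refine ⟨ha.1, fun hP => ha.2 ?_⟩
    have hE := h1 (1 / Real.log Y) V (fun n a => (n + a).Prime) (by positivity) hX3 k a hk' hk hP
    obtain ⟨P1, P2⟩ := hP
    obtain ⟨E1, E2, E3⟩ := hE
    have hX1 : (1 : ℝ) ≤ V.card := by exact_mod_cast (by omega : 1 ≤ V.card)
    have hup : ∀ (u : ℝ) (c : ℕ), (c : ℝ) ≤ (V.card : ℝ) ^ (1 - kap (1 / Real.log Y) V.card k * I u + ε') →
        (c : ℝ) ≤ (V.card : ℝ) ^ (1 - kap (1 / Real.log Y) V.card k * I u + ε) := fun u c h =>
      h.trans (Real.rpow_le_rpow_of_exponent_le hX1 (by linarith))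
    have hdn : ∀ (u : ℝ) (c : ℕ), (kap (1 / Real.log Y) V.card k * I u ≤ 1 - ε' →
        (V.card : ℝ) ^ (1 - kap (1 / Real.log Y) V.card k * I u - ε') ≤ c) →
        kap (1 / Real.log Y) V.card k * I u ≤ 1 - ε →
        (V.card : ℝ) ^ (1 - kap (1 / Real.log Y) V.card k * I u - ε) ≤ c := fun u c h h' =>
      (Real.rpow_le_rpow_of_exponent_le hX1 (by linarith)).trans (h (by linarith))
    have hNP : ∀ u : ℝ, NP (fun n a => (n + a).Prime) (1 / Real.log Y) V a u =
        (V.filter (fun n => u ≤ dens Y a n)).card := by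
      intro u
      unfold NP
      apply congrArg
      apply filter_congr
      intro n _
      exact ((dens_le Y k (by omega) hk0 a n u).2).symm
    have hNM : ∀ u : ℝ, NM (fun n a => (n + a).Prime) (1 / Real.log Y) V a u =
        (V.filter (fun n => dens Y a n ≤ u)).card := by
      intro u
      unfold NM
      apply congrArg
      apply filter_congr
      intro n _
      exact ((dens_le Y k (by omega) hk0 a n u).1).symm
    refine ⟨⟨fun u hu => ?_, fun u hu hu1 => ?_⟩, fun v hv hvI => ?_, fun w hw hw1 hwI => ?_, fun h => ?_⟩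
    · obtain ⟨q1, q2⟩ := P1 u hu
      rw [hNP] at q1 q2
      rw [← kap_eq]
      exact ⟨hup u _ q1, hdn u _ q2⟩
    · obtain ⟨q1, q2⟩ := P2 u hu hu1
      rw [hNM] at q1 q2
      rw [← kap_eq]
      exact ⟨hup u _ q1, hdn u _ q2⟩
    · rw [← kap_eq] at hvI
      obtain ⟨q1, n, hn, q2⟩ := E1 v hv hvI
      exact ⟨fun n hn => (dens_le Y k (by omega) hk0 a n _).1.2 (q1 n hn), n, hn,
        (dens_le Y k (by omega) hk0 a n _).2.2 q2⟩
    · rw [← kap_eq] at hwI
      obtain ⟨q1, n, hn, q2⟩ := E2 w hw hw1 hwI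
      exact ⟨fun n hn => (dens_le Y k (by omega) hk0 a n _).2.2 (q1 n hn), n, hn,
        (dens_le Y k (by omega) hk0 a n _).1.2 q2⟩
    · rw [← kap_eq] at h
      obtain ⟨n, hn, q⟩ := E3 h
      refine ⟨n, hn, ?_⟩
      unfold dens
      rw [hit_eq, q]
      simp
  · intro ε hε hε1
    obtain ⟨M, η, X₀, hη, h1⟩ := far (α := ℕ) (β := ℕ) ε hε hε1
    obtain ⟨Y₀, h3⟩ := reg_shifts η hη
    refine ⟨max M 1, max (max X₀ Y₀) 3, fun V Y k hX hV hk => ?_⟩
    have hX₀ : X₀ ≤ V.card := ((le_max_left _ _).trans (le_max_left _ _)).trans hX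
    have hY₀ : Y₀ ≤ V.card := ((le_max_right _ _).trans (le_max_left _ _)).trans hX
    have hX3 : 3 ≤ V.card := (le_max_right _ _).trans hX
    have hVY : V.card ≤ Y := by
      have := card_le_card hV
      rwa [Nat.card_Icc, Nat.add_sub_cancel] at this
    have hL : 0 < Real.log Y := Real.log_pos (by exact_mod_cast (by omega : 1 < Y))
    have hk0 : 0 < k := by
      by_contra h
      have : k = 0 := by omega
      rw [this] at hk
      unfold kappa at hk
      rw [Nat.cast_zero, zero_div] at hk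
      have := (le_max_right M 1).trans hk
      linarith
    rw [← kap_eq] at hk
    have h4 := h1 (1 / Real.log Y) (Icc 1 Y) V (fun n a => (n + a).Prime) (by positivity)
      (h3 Y (hY₀.trans hVY) V hV hX3) hX₀ k ((le_max_left _ _).trans hk)
    rw [Nat.card_Icc, Nat.add_sub_cancel] at h4
    refine le_trans ?_ h4
    apply Nat.cast_le.2
    apply card_le_card
    intro a ha
    unfold Seqs at ha
    rw [mem_filter] at ha ⊢
    refine ⟨ha.1, fun hP => ha.2 fun n hn => ?_⟩
    have h5 := abs_le.1 (hP n hn)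
    rw [abs_le]
    constructor
    · have := (dens_le Y k (by omega) hk0 a n (1 - ε)).2.2 (by linarith [h5.1])
      linarith
    · have := (dens_le Y k (by omega) hk0 a n (1 + ε)).1.2 (by linarith [h5.2])
      linarith

end Pool.Agent.Results.MP_b09185_nt.RandomPatternDensities
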